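import Pool.Agent.X72.RSR.Stm

/-! Project RS, part RT: transposition of a Gaussian matrix. -/

set_option autoImplicit false

open MeasureTheory ProbabilityTheory Filter Topology Set
open scoped ENNReal

namespace Pool.Agent.X4.RS

open Pool.Agent.X19.SS Pool.Agent.X72.RSR

theorem t_RT : S_RT := by
  intro K _ _ _ m p
  have hT : Measurable (fun (h : Fin m → Fin p → K) (a : Fin p) (k : Fin m) => h k a) :=
    measurable_pi_lambda _ fun a => measurable_pi_lambda _ fun k =>
      (measurable_pi_apply a).comp (measurable_pi_apply k)
  have : IsProbabilityMeasure (gK K (Fin m)) := by unfold gK; infer_instance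
  have : IsProbabilityMeasure (gK K (Fin p)) := by unfold gK; infer_instance
  refine ⟨hT, ?_⟩
  symm
  apply Measure.pi_eq_generateFrom (C := fun _ : Fin p =>
    Set.pi univ '' Set.pi univ fun _ : Fin m => {s : Set K | MeasurableSet s})
  · intro i
    exact generateFrom_pi
  · intro i
    exact isPiSystem_pi
  · intro i
    exact ⟨fun _ => univ, fun _ => ⟨fun _ => univ, fun _ _ => MeasurableSet.univ, by simp⟩,
      fun _ => measure_lt_top _ _, iUnion_const _⟩
  · intro s hs
    choose t ht hts using hs
    have hm : ∀ a k, MeasurableSet (t a k) := fun a k => ht a k (mem_univ k)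
    have hsm : ∀ a, MeasurableSet (s a) := fun a => by
      rw [← hts a]
      exact MeasurableSet.univ_pi fun k => hm a k
    rw [Measure.map_apply hT (MeasurableSet.univ_pi hsm)]
    have e : (fun (h : Fin m → Fin p → K) (a : Fin p) (k : Fin m) => h k a) ⁻¹' (Set.pi univ s) =
        Set.pi univ (fun k => Set.pi univ fun a => t a k) := by
      ext h
      simp only [mem_preimage, Set.mem_pi, mem_univ, true_implies, ← hts]
      exact forall_comm
    rw [e, Measure.pi_pi]
    have e1 : ∀ k, gK K (Fin p) (Set.pi univ fun a => t a k) = ∏ a, stdGaussian K (t a k) := by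
      intro k
      unfold gK
      rw [Measure.pi_pi]
    have e2 : ∀ a, gK K (Fin m) (s a) = ∏ k, stdGaussian K (t a k) := by
      intro a
      rw [← hts a]
      unfold gK
      rw [Measure.pi_pi]
    simp_rw [e1, e2]
    exact Finset.prod_comm

end Pool.Agent.X4.RS
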